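import Pool.Agent.N87.FV.Dom

/-! Maps of large degree from the multiplicative group to a Laurent curve. -/

set_option autoImplicit false
set_option linter.unusedSectionVars false

open FF Pool.Agent.W603.LV Polynomial IntermediateField
open Pool.Agent.H159R3.Exp (Laur)

namespace Pool.Agent.N87.FV

open Pool.Agent.N754.FV

section

variable {k : Type*} [Field k] [CharZero k] [IsAlgClosed k]
  {E : Type*} [Field E] [Algebra k E] [IsFF k E]

theorem transcendental_of_top {x : E} (hx : k⟮x⟯ = ⊤) : Transcendental k x := by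
  intro h
  obtain ⟨t, ht⟩ := IsFF.exists_transcendental (k := k) (K := E)
  apply ht
  have h1 : t ∈ k⟮x⟯ := by rw [hx]; trivial
  have h2 : Algebra.IsAlgebraic k k⟮x⟯ := IntermediateField.isAlgebraic_adjoin_simple h.isIntegral
  have h3 := h2.isAlgebraic ⟨t, h1⟩
  exact h3.algebraMap (A := E)

theorem top_sub {x : E} (hx : k⟮x⟯ = ⊤) (a : k) : k⟮x - algebraMap k E a⟯ = ⊤ := by
  rw [eq_top_iff, ← hx, adjoin_simple_le_iff]
  have h1 := mem_adjoin_simple_self k (x - algebraMap k E a)
  have h2 := add_mem h1 (_root_.algebraMap_mem k⟮x - algebraMap k E a⟯ a)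
  rwa [sub_add_cancel] at h2

/-- zeros of a generator -/
theorem zero_unique {x : E} (hx : k⟮x⟯ = ⊤) : ∃ P : Place k E, P.ord x = 1 ∧
    ∀ Q : Place k E, 0 < Q.ord x → Q = P := by
  classical
  have ht := transcendental_of_top hx
  obtain ⟨S, hS, -, hsum⟩ := zeros (k := k) (K := E) ht
  rw [hx, IntermediateField.finrank_top] at hsum
  have h1 : ∀ w ∈ S, 1 ≤ (w.ord x).toNat * w.deg := by
    intro w hw
    have := (hS w).1 hw
    rw [deg_one]
    omega
  have hne : S.Nonempty := by
    rw [Finset.nonempty_iff_ne_empty]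
    rintro rfl
    simp at hsum
  obtain ⟨P, hP⟩ := hne
  have h2 : (P.ord x).toNat * P.deg ≤ 1 := by
    rw [← hsum]
    exact Finset.single_le_sum (f := fun w : Place k E => (w.ord x).toNat * w.deg)
      (fun _ _ => Nat.zero_le _) hP
  refine ⟨P, ?_, ?_⟩
  · have h3 := h1 P hP
    rw [deg_one] at h2 h3
    omega
  · intro Q hQ
    by_contra hne
    have h3 : ({P, Q} : Finset (Place k E)) ⊆ S := by
      intro w hw
      simp only [Finset.mem_insert, Finset.mem_singleton] at hw
      rcases hw with rfl | rfl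
      · exact hP
      · exact (hS _).2 hQ
    have h4 := Finset.sum_le_sum_of_subset (f := fun w : Place k E => (w.ord x).toNat * w.deg) h3
    rw [Finset.sum_pair (fun h => hne h.symm), hsum] at h4
    have h5 := h1 P hP
    have h6 := h1 Q ((hS _).2 hQ)
    omega

/-- the pole of a generator -/
theorem pole_unique {x : E} (hx : k⟮x⟯ = ⊤) : ∃ P : Place k E, P.ord x = -1 ∧
    ∀ Q : Place k E, Q.ord x < 0 → Q = P := by
  have h1 : k⟮x⁻¹⟯ = ⊤ := by rw [adjoin_inv, hx]
  obtain ⟨P, hP, hP2⟩ := zero_unique h1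
  refine ⟨P, ?_, fun Q hQ => hP2 Q ?_⟩
  · rw [P.ord_inv] at hP; omega
  · rw [Q.ord_inv]; omega

theorem canDeg_rational {x : E} (hx : k⟮x⟯ = ⊤) : canDeg k E = -2 := by
  classical
  have ht := transcendental_of_top hx
  obtain ⟨D, hD, hDx⟩ : ∃ D : Derivation k E E, D ≠ 0 ∧ D x = 1 := by
    have h1 := der_ne (k := k) (K := E)
    have h2 := der_ne_zero h1 ht
    refine ⟨(der k E x)⁻¹ • der k E, ?_, ?_⟩
    · simp [h2, h1]
    · simp [h2]
  obtain ⟨P, hP, hP2⟩ := pole_unique hx
  have h1 := canDeg_finset (k := k) hD {P} (by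
    intro Q hQ
    rw [Finset.mem_singleton]
    by_contra hne
    apply hQ
    have hQx : 0 ≤ Q.ord x := by
      by_contra hcon
      exact hne (hP2 Q (by omega))
    obtain ⟨a, ha⟩ := exists_const Q (f := x) (Or.inr hQx)
    have h0 : x - algebraMap k E a ≠ 0 := by
      intro h
      apply ht
      rw [sub_eq_zero] at h
      rw [h]
      exact isAlgebraic_algebraMap a
    have h1 := ha.resolve_left h0
    obtain ⟨P', hP', hP2'⟩ := zero_unique (top_sub hx a)
    have h2 : Q = P' := hP2' Q (by omega)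
    subst h2
    have h3 := (ord_der Q hD (f := x - algebraMap k E a) (by omega)).2
    rw [map_sub, hDx, Derivation.map_algebraMap, sub_zero, Q.ord_one, hP'] at h3
    omega)
  rw [Finset.sum_singleton] at h1
  have h3 := (ord_der P hD (f := x) (by omega)).2
  rw [hDx, P.ord_one, hP] at h3
  omega

theorem vmul {P : Place k E} {f g : E} {c d : k} (hf : Ge P 1 (f - algebraMap k E c))
    (hg : Ge P 1 (g - algebraMap k E d)) : Ge P 1 (f * g - algebraMap k E (c * d)) := by
  have hg0 : Ge P 0 g := by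
    have h := (hg.mono zero_le_one).add (Ge.const (P := P) d)
    rwa [sub_add_cancel] at h
  have h1 := hf.mul hg0
  have h2 := (Ge.const (P := P) c).mul hg
  rw [add_zero] at h1
  rw [zero_add] at h2
  have h3 := h1.add h2
  have h4 : (f - algebraMap k E c) * g + algebraMap k E c * (g - algebraMap k E d) =
      f * g - algebraMap k E (c * d) := by
    rw [map_mul]; ring
  rwa [h4] at h3

theorem vadd {P : Place k E} {f g : E} {c d : k} (hf : Ge P 1 (f - algebraMap k E c))
    (hg : Ge P 1 (g - algebraMap k E d)) : Ge P 1 (f + g - algebraMap k E (c + d)) := by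
  have h3 := hf.add hg
  have h4 : (f - algebraMap k E c) + (g - algebraMap k E d) =
      f + g - algebraMap k E (c + d) := by
    rw [map_add]; ring
  rwa [h4] at h3

theorem vconst {P : Place k E} (c : k) : Ge P 1 (algebraMap k E c - algebraMap k E c) := by
  left; rw [sub_self]

theorem vpow {P : Place k E} {f : E} {c : k} (hf : Ge P 1 (f - algebraMap k E c)) (n : ℕ) :
    Ge P 1 (f ^ n - algebraMap k E (c ^ n)) := by
  induction n with
  | zero => left; simp
  | succ n ih => rw [pow_succ, pow_succ]; exact vmul ih hf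

theorem vpoly {P : Place k E} {f : E} {c : k} (hf : Ge P 1 (f - algebraMap k E c)) (p : k[X]) :
    Ge P 1 (aeval f p - algebraMap k E (p.eval c)) := by
  induction p using Polynomial.induction_on' with
  | add p q hp hq => rw [map_add, eval_add]; exact vadd hp hq
  | monomial n a =>
    rw [aeval_monomial, eval_monomial]
    exact vmul (vconst a) (vpow hf n)

end

/-- `g` is a rational function without poles outside of `0` and `∞`, with the values `φ` -/
def Rep {k : Type*} [Field k] (g : RatFunc k) (φ : k → k) : Prop :=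
  ∃ (N : ℕ) (H : k[X]), g * RatFunc.X ^ N = algebraMap k[X] (RatFunc k) H ∧
    ∀ t, t ≠ 0 → φ t * t ^ N = H.eval t

section

variable {k : Type*} [Field k]

theorem Rep.const (c : k) : Rep (algebraMap k (RatFunc k) c) fun _ => c := by
  refine ⟨0, C c, ?_, fun t _ => by simp⟩
  rw [pow_zero, mul_one, IsScalarTower.algebraMap_apply k k[X] (RatFunc k)]
  rfl

theorem Rep.add {g g' : RatFunc k} {φ ψ : k → k} (h : Rep g φ) (h' : Rep g' ψ) :
    Rep (g + g') fun t => φ t + ψ t := by
  obtain ⟨N, H, h1, h2⟩ := h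
  obtain ⟨N', H', h3, h4⟩ := h'
  refine ⟨N + N', H * X ^ N' + H' * X ^ N, ?_, fun t ht => ?_⟩
  · rw [map_add, map_mul, map_mul, map_pow, map_pow, ← h1, ← h3, RatFunc.algebraMap_X, pow_add]
    ring
  · simp only [eval_add, eval_mul, eval_pow, eval_X]
    rw [← h2 t ht, ← h4 t ht, pow_add]
    ring

theorem Rep.mul {g g' : RatFunc k} {φ ψ : k → k} (h : Rep g φ) (h' : Rep g' ψ) :
    Rep (g * g') fun t => φ t * ψ t := by
  obtain ⟨N, H, h1, h2⟩ := h
  obtain ⟨N', H', h3, h4⟩ := h'
  refine ⟨N + N', H * H', ?_, fun t ht => ?_⟩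
  · rw [map_mul, ← h1, ← h3, pow_add]
    ring
  · simp only [eval_mul]
    rw [← h2 t ht, ← h4 t ht, pow_add]
    ring

theorem Rep.aeval {σ : Type*} {f : σ → RatFunc k} {w : k → σ → k}
    (h : ∀ j, Rep (f j) fun t => w t j) (Q : MvPolynomial σ k) :
    Rep (MvPolynomial.aeval f Q) fun t => MvPolynomial.eval (w t) Q := by
  induction Q using MvPolynomial.induction_on with
  | C a => simpa using Rep.const a
  | add p q hp hq =>
    simp only [map_add]
    exact hp.add hq
  | mul_X p j hp =>
    simp only [map_mul, MvPolynomial.aeval_X, MvPolynomial.eval_X]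
    exact hp.mul (h j)

theorem Rep.zero [Infinite k] {g : RatFunc k} {φ : k → k} (h : Rep g φ)
    (h0 : ∀ t, t ≠ 0 → φ t = 0) : g = 0 := by
  obtain ⟨N, H, h1, h2⟩ := h
  have h3 : H * X = 0 := by
    refine Polynomial.funext fun t => ?_
    rw [eval_mul, eval_X, eval_zero]
    by_cases ht : t = 0
    · rw [ht, mul_zero]
    · rw [← h2 t ht, h0 t ht, zero_mul, zero_mul]
  have h4 : H = 0 := (mul_eq_zero.1 h3).resolve_right X_ne_zero
  rw [h4, map_zero] at h1
  exact (mul_eq_zero.1 h1).resolve_right (pow_ne_zero _ RatFunc.X_ne_zero)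

end

theorem rc : RC := by
  intro k _ _ _ n v hv hne s0 hs0
  classical
  have hinf : Infinite k := inferInstance
  have hX : Transcendental k (RatFunc.X : RatFunc k) := RatFunc.transcendental_X
  have hX0 : (RatFunc.X : RatFunc k) ≠ 0 := RatFunc.X_ne_zero
  have htop : k⟮(RatFunc.X : RatFunc k)⟯ = ⊤ := RatFunc.adjoin_X
  have : IsFF k (RatFunc k) := IsFF.of_finite hX (by
    rw [htop]
    exact Module.Finite.of_surjective
      (Algebra.linearMap (⊤ : IntermediateField k (RatFunc k)) (RatFunc k))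
      (fun z => ⟨⟨z, trivial⟩, rfl⟩))
  have : CharZero (RatFunc k) :=
    charZero_of_injective_algebraMap (algebraMap k (RatFunc k)).injective
  obtain ⟨Pz, hz, hz2⟩ := zero_unique htop
  obtain ⟨Pp, hp, hp2⟩ := pole_unique htop
  obtain ⟨P0, h0, -⟩ := zero_unique (top_sub htop 1)
  have hS : ∀ P : Place k (RatFunc k), P ∉ ({Pz, Pp} : Finset (Place k (RatFunc k))) →
      P.ord (RatFunc.X : RatFunc k) = 0 := by
    intro P hP
    rcases lt_trichotomy (P.ord (RatFunc.X : RatFunc k)) 0 with h | h | h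
    · exact absurd (by simp [hp2 P h]) hP
    · exact h
    · exact absurd (by simp [hz2 P h]) hP
  have hP0 : P0 ∉ ({Pz, Pp} : Finset (Place k (RatFunc k))) := by
    intro h
    rw [Finset.mem_insert, Finset.mem_singleton] at h
    have h1 : Ge P0 1 ((RatFunc.X : RatFunc k) - algebraMap k (RatFunc k) 1) := Or.inr h0.ge
    rcases h with rfl | rfl
    · have h2 : Ge P0 1 (RatFunc.X : RatFunc k) := Or.inr hz.ge
      have h3 := h2.sub h1
      rw [sub_sub_cancel] at h3
      exact one_ne_zero (const_zero P0 h3)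
    · have h3 := (h1.mono zero_le_one).add (Ge.const (P := P0) 1)
      rw [sub_add_cancel] at h3
      have := h3.resolve_left hX0
      omega
  refine ⟨{Pz, Pp}, P0, hP0, ?_, fun C0 => ?_⟩
  · have hne : Pz ≠ Pp := by
      rintro rfl
      omega
    unfold euler
    rw [canDeg_rational htop, Finset.card_pair hne]
    norm_num
  -- the polynomials
  obtain ⟨M, Q, hQ⟩ := Laur.common v hv
  let q : Fin n → k[X] := fun j => (Q j).comp (C s0 * X) * C (s0 ^ M)⁻¹
  have hq : ∀ t : k, t ≠ 0 → ∀ j, v (s0 * t) j = (q j).eval t / t ^ M := by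
    intro t ht j
    rw [hQ _ (mul_ne_zero hs0 ht)]
    simp only [q, eval_mul, eval_comp, eval_C, eval_X]
    rw [mul_pow]
    field_simp
  obtain ⟨j, i, hi, hc⟩ := exists_coeff (fun t => v (s0 * t)) M q hq (by
    obtain ⟨s, s', hs, hs', h⟩ := hne
    refine ⟨s0⁻¹ * s, s0⁻¹ * s', mul_ne_zero (inv_ne_zero hs0) hs,
      mul_ne_zero (inv_ne_zero hs0) hs', ?_⟩
    rwa [mul_inv_cancel_left₀ hs0, mul_inv_cancel_left₀ hs0])
  have hcq : ((q j).map (algebraMap k (RatFunc k))).coeff i ≠ 0 := by
    rw [coeff_map, Ne, map_eq_zero]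
    exact hc
  obtain ⟨P, c0, m0, hgr⟩ := growth hX ((q j).map (algebraMap k (RatFunc k))) M i hi hcq
  obtain ⟨m, hm⟩ : ∃ m : ℕ, m = m0 + (C0 + c0).toNat + 1 := ⟨_, rfl⟩
  let f : Fin n → RatFunc k := fun j =>
    ((q j).map (algebraMap k (RatFunc k))).eval (RatFunc.X ^ m) / (RatFunc.X ^ m) ^ M
  have hf : ∀ j, f j = aeval (RatFunc.X ^ m : RatFunc k) (q j) / (RatFunc.X ^ m) ^ M := by
    intro j
    simp only [f]
    rw [eval_map_algebraMap]
  refine ⟨f, fun j P hP => ?_, ?_, fun G hG => ?_, fun j => ?_⟩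
  · exact reg_eval P hX0 (hS P hP) _ (fun i => by rw [coeff_map]; exact Ge.const _) m M
  · have h1 := hgr m (by omega)
    have h2 := le_mapDeg (k := k) f P j
    have h3 : C0 + c0 < m := by omega
    simp only [f] at h2 ⊢
    linarith
  · refine Rep.zero (Rep.aeval (w := fun t => v (s0 * t ^ m)) (fun j => ?_) G) fun t ht =>
      hG _ (mul_ne_zero hs0 (pow_ne_zero _ ht))
    refine ⟨m * M, (q j).comp (X ^ m), ?_, fun t ht => ?_⟩
    · rw [hf, pow_mul, div_mul_cancel₀ _ (pow_ne_zero _ (pow_ne_zero _ hX0))]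
      have h1 : (RatFunc.X ^ m : RatFunc k) = algebraMap k[X] (RatFunc k) (X ^ m) := by
        rw [map_pow, RatFunc.algebraMap_X]
      rw [h1, aeval_algebraMap_apply]
      congr 1
    · simp only
      rw [hq _ (pow_ne_zero _ ht), pow_mul, div_mul_cancel₀ _ (pow_ne_zero _ (pow_ne_zero _ ht)),
        eval_comp, eval_pow, eval_X]
  · have hXP : P0.ord (RatFunc.X : RatFunc k) = 0 := hS P0 hP0
    have h1 : Ge P0 1 ((RatFunc.X : RatFunc k) - algebraMap k (RatFunc k) 1) := Or.inr h0.ge
    have h2 := vpow h1 m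
    rw [one_pow] at h2
    have h3 := vpoly h2 (q j)
    have h4 := vpow h2 M
    rw [one_pow] at h4
    have h5 : v s0 j = (q j).eval 1 := by
      have := hq 1 one_ne_zero j
      rwa [mul_one, one_pow, div_one] at this
    rw [h5]
    set c := (q j).eval 1 with hcd
    have h6 := vmul (vconst (P := P0) c) h4
    have h7 := h3.sub h6
    have h8 : Ge P0 0 (((RatFunc.X ^ m : RatFunc k) ^ M)⁻¹) := by
      right
      rw [P0.ord_inv, P0.ord_pow, P0.ord_pow, hXP]
      simp
    have h9 := h7.mul h8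
    rw [add_zero] at h9
    convert h9 using 1
    rw [hf, mul_one]
    field_simp
    ring

end Pool.Agent.N87.FV
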