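import Pool.Agent.N754.FV.Stm2
import Pool.Agent.N87.FV.RC
import Pool.Agent.TH143.GE.Form

/-! Endomorphisms of the affine curves with Euler characteristic at most zero. -/

set_option autoImplicit false
set_option linter.unusedSectionVars false
set_option linter.overlappingInstances false

open FF Pool.Agent.W603.LV Pool.Agent.W603.PV IntermediateField

namespace Pool.Agent.N87.FV

open Pool.Agent.N754.FV

/-- The heights of the images under a homomorphism of function fields. -/
theorem hgt_hom {k L E : Type} [Field k] [Field L] [Field E] [Algebra k L] [Algebra k E]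
    [IsAlgClosed k] [CharZero k] [IsFF k L] [IsFF k E] (φ : L →ₐ[k] E) :
    ∃ N : ℕ, ∀ f, hgt k (φ f) = N * hgt k f := by
  let _ : Algebra L E := φ.toRingHom.toAlgebra
  have : IsScalarTower k L E := IsScalarTower.of_algebraMap_eq fun c => (φ.commutes c).symm
  exact ⟨Module.finrank L E, fun f => hgt_algebraMap (k := k) (F := L) (L := E) f⟩

/-- The place below a place. -/
theorem over_hom {k L E : Type} [Field k] [Field L] [Field E] [Algebra k L] [Algebra k E]
    (φ : L →ₐ[k] E) (P : Place k E) (h : ∃ f, P.ord (φ f) ≠ 0) :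
    ∃ (e : ℕ) (P' : Place k L), 0 < e ∧ ∀ f, P.ord (φ f) = e * P'.ord f := by
  let _ : Algebra L E := φ.toRingHom.toAlgebra
  have : IsScalarTower k L E := IsScalarTower.of_algebraMap_eq fun c => (φ.commutes c).symm
  obtain ⟨e, P', h1, h2⟩ := exists_over (K := L) P h
  exact ⟨e, P', h1, h2⟩

variable {k : Type} [Field k] [CharZero k] [IsAlgClosed k]
  {K : Type} [Field K] [Algebra k K] [IsFF k K]

/-- The squaring of a generator. -/
theorem exists_sq {t : K} (ht : k⟮t⟯ = ⊤) :
    ∃ (φ : K →ₐ[k] K) (N : ℕ), 2 ≤ N ∧ (∀ f, hgt k (φ f) = N * hgt k f) ∧ φ t = t ^ 2 := by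
  have htr : Transcendental k t := transcendental_of_top ht
  have htr2 : Transcendental k (t ^ 2) := fun h => htr (h.of_pow (by norm_num))
  obtain ⟨φ, hφ⟩ : ∃ φ : K →ₐ[k] K, φ t = t ^ 2 := by
    let e : K ≃ₐ[k] k⟮t⟯ := (IntermediateField.topEquiv.symm).trans
      (IntermediateField.equivOfEq ht.symm)
    have he : e t = IntermediateField.AdjoinSimple.gen k t := rfl
    refine ⟨((k⟮t ^ 2⟯.val).comp (((RatFunc.algEquivOfTranscendental t htr).symm.trans
      (RatFunc.algEquivOfTranscendental (t ^ 2) htr2)) : k⟮t⟯ →ₐ[k] k⟮t ^ 2⟯)).comp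
        (e : K →ₐ[k] k⟮t⟯), ?_⟩
    change ((RatFunc.algEquivOfTranscendental (t ^ 2) htr2
        ((RatFunc.algEquivOfTranscendental t htr).symm (e t)) : k⟮t ^ 2⟯) : K) = t ^ 2
    rw [he, RatFunc.algEquivOfTranscendental_symm_gen, RatFunc.algEquivOfTranscendental_X]
  obtain ⟨N, hN⟩ := hgt_hom φ
  refine ⟨φ, N, ?_, hN, hφ⟩
  have ht0 : t ≠ 0 := fun h0 => htr (h0 ▸ isAlgebraic_zero)
  have h1 := hN t
  rw [hφ, hgt_pow ht0] at h1
  have h2 : 1 ≤ hgt k t := by
    by_contra hcon
    obtain ⟨c, hc⟩ := const_of_hgt (k := k) (f := t) (by omega)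
    exact htr (hc ▸ isAlgebraic_algebraMap c)
  have h3 : (N : ℤ) = 2 := by
    push_cast at h1
    nlinarith
  have h4 : N = 2 := by exact_mod_cast h3
  omega

/-- a generator with a pole at a given place -/
theorem exists_gen_pole {t : K} (ht : k⟮t⟯ = ⊤) (P : Place k K) :
    ∃ w : K, k⟮w⟯ = ⊤ ∧ P.ord w < 0 := by
  by_cases h : P.ord t < 0
  · exact ⟨t, ht, h⟩
  · obtain ⟨a, ha⟩ := exists_const P (f := t) (Or.inr (by omega))
    have h1 := top_sub ht a
    have h2 : t - algebraMap k K a ≠ 0 := ne_zero_of_tr (transcendental_of_top h1)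
    refine ⟨(t - algebraMap k K a)⁻¹, by rw [adjoin_inv]; exact h1, ?_⟩
    rw [P.ord_inv]
    have := ha.resolve_left h2
    omega

/-- a generator without a zero or pole outside of one or two given places -/
theorem exists_gen_two {t : K} (ht : k⟮t⟯ = ⊤) (P1 P2 : Place k K) (hne : P1 ≠ P2) :
    ∃ z : K, k⟮z⟯ = ⊤ ∧ P1.ord z ≠ 0 ∧ P2.ord z ≠ 0 := by
  obtain ⟨w, hw, hw1⟩ := exists_gen_pole ht P1
  obtain ⟨P, -, hP⟩ := pole_unique hw
  have h1 : 0 ≤ P2.ord w := by
    by_contra h
    exact hne ((hP P1 hw1).trans (hP P2 (by omega)).symm)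
  obtain ⟨a, ha⟩ := exists_const P2 (f := w) (Or.inr h1)
  have h2 := top_sub hw a
  have h3 : w - algebraMap k K a ≠ 0 := ne_zero_of_tr (transcendental_of_top h2)
  refine ⟨_, h2, fun h => ?_, fun h => ?_⟩
  · have h4 : Ge P1 0 (w - algebraMap k K a) := Or.inr h.ge
    have h5 := h4.add (Ge.const (P := P1) a)
    rw [sub_add_cancel] at h5
    have := h5.resolve_left (ne_zero_of_tr (transcendental_of_top hw))
    omega
  · have := ha.resolve_left h3
    omega

theorem gz : GZ := by
  intro k K _ _ _ _ _ _ S hS he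
  classical
  have hcard : 1 ≤ S.card := hS.card_pos
  have hneg : canDeg k K < 0 := by
    unfold euler at he
    omega
  obtain ⟨t, ht⟩ := Pool.Agent.TH143.GE.rational_of_neg hneg
  have h2 : canDeg k K = -2 := canDeg_rational ht
  have hcard2 : S.card ≤ 2 := by
    unfold euler at he
    omega
  obtain ⟨z, hz, hzS⟩ : ∃ z : K, k⟮z⟯ = ⊤ ∧ ∀ P ∈ S, P.ord z ≠ 0 := by
    rcases (by omega : S.card = 1 ∨ S.card = 2) with h | h
    · obtain ⟨P, rfl⟩ := Finset.card_eq_one.1 h
      obtain ⟨w, hw, hw1⟩ := exists_gen_pole ht P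
      refine ⟨w, hw, fun Q hQ => ?_⟩
      rw [Finset.mem_singleton] at hQ
      subst hQ
      exact hw1.ne
    · obtain ⟨P1, P2, hne, rfl⟩ := Finset.card_eq_two.1 h
      obtain ⟨z, hz, h1, h2⟩ := exists_gen_two ht P1 P2 hne
      refine ⟨z, hz, fun Q hQ => ?_⟩
      rw [Finset.mem_insert, Finset.mem_singleton] at hQ
      rcases hQ with rfl | rfl
      · exact h1
      · exact h2
  obtain ⟨φ, N, hN, hφ, hφz⟩ := exists_sq hz
  refine ⟨φ, N, hN, hφ, fun f hf P hP => ?_⟩
  by_contra hcon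
  push Not at hcon
  obtain ⟨e, P', he0, he⟩ := over_hom φ P ⟨f, hcon.ne⟩
  have he0' : (0 : ℤ) < e := by exact_mod_cast he0
  have h3 : P'.ord f < 0 := by
    rw [he] at hcon
    by_contra h
    push Not at h
    nlinarith
  have h4 : P' ∈ S := by
    by_contra h
    have := hf P' h
    omega
  have h5 := hzS P' h4
  have h6 := he z
  rw [hφz, P.ord_pow] at h6
  push_cast at h6
  apply hP
  have h7 : P = P' := by
    rcases lt_or_gt_of_ne h5 with h | h
    · obtain ⟨R, -, hR⟩ := pole_unique hz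
      have h8 : P.ord z < 0 := by nlinarith
      rw [hR P h8, hR P' h]
    · obtain ⟨R, -, hR⟩ := zero_unique hz
      have h8 : 0 < P.ord z := by nlinarith
      rw [hR P h8, hR P' h]
  rw [h7]
  exact h4

end Pool.Agent.N87.FV
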