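import Pool.Agent.N87.FV.Dom

/-! Points of large height on Laurent curves over the algebraic closure of a function field. -/

set_option autoImplicit false

open FF Pool.Agent.W603.LV Polynomial
open Pool.Agent.H159R3.Exp (Laur)

namespace Pool.Agent.N87.FV

open Pool.Agent.N754.FV

theorem lh : LH := by
  intro k F Ω _ _ _ _ _ _ _ _ _ n v hv hne G hG
  classical
  obtain ⟨M, Q, hQ⟩ := Laur.common v hv
  obtain ⟨j, i, hi, hc⟩ := exists_coeff v M Q hQ hne
  let T : Finset Ω := Finset.univ.biUnion fun j => (Q j).coeffs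
  let L := IntermediateField.adjoin F (T : Set Ω)
  have hL : FiniteDimensional F L :=
    IntermediateField.finiteDimensional_adjoin
      (fun x _ => (Algebra.IsAlgebraic.isAlgebraic (R := F) x).isIntegral)
  let _ : Algebra k L := ((algebraMap F L).comp (algebraMap k F)).toAlgebra
  have _i1 : IsScalarTower k F L := IsScalarTower.of_algebraMap_eq fun _ => rfl
  have : IsFF k L := Pool.Agent.W603.PV.isFF_of_finite (F := F)
  have : CharZero L := charZero_of_injective_algebraMap (algebraMap k L).injective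
  obtain ⟨u, hu⟩ := IsFF.exists_transcendental (k := k) (K := L)
  have hu0 := ne_zero_of_tr hu
  -- the polynomials have coefficients in L
  have hq : ∀ j, ∃ q : L[X], q.map (algebraMap L Ω) = Q j := by
    intro j
    rw [← mem_lifts, lifts_iff_coeff_lifts]
    intro i
    by_cases h0 : (Q j).coeff i = 0
    · exact ⟨0, by rw [map_zero, h0]⟩
    · have h1 : (Q j).coeff i ∈ T :=
        Finset.mem_biUnion.2 ⟨j, Finset.mem_univ _, coeff_mem_coeffs h0⟩
      exact ⟨⟨_, IntermediateField.subset_adjoin F _ h1⟩, rfl⟩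
  choose q hq using hq
  let x : ℕ → Fin n → L := fun m j => (q j).eval (u ^ m) / (u ^ m) ^ M
  let τ : L →ₐ[F] Ω := L.val
  have hτ : ∀ z : L, τ z = algebraMap L Ω z := fun _ => rfl
  have hτu : ∀ m : ℕ, τ (u ^ m) ≠ 0 := fun m => by
    rw [Ne, map_eq_zero]
    exact pow_ne_zero _ hu0
  have hx : ∀ m, (fun j => τ (x m j)) = v (τ (u ^ m)) := by
    intro m
    funext j
    rw [hQ _ (hτu m)]
    simp only [x]
    rw [map_div₀, map_pow τ _ M, ← hq j]
    congr 1
    rw [hτ, hτ, eval_map_algebraMap, aeval_algebraMap_apply]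
    simp [aeval_def, eval₂_id]
  -- the polynomial G
  have hGl : Laur (fun t => MvPolynomial.eval₂ (algebraMap F Ω) (v t) G) :=
    Laur.eval₂ (algebraMap F Ω) v hv G
  obtain ⟨M', R, hR⟩ := hGl
  have hR0 : R ≠ 0 := by
    rintro rfl
    obtain ⟨s, hs, hsG⟩ := hG
    have h1 := hR s hs
    rw [eval_zero] at h1
    rw [MvPolynomial.aeval_def] at hsG
    exact mul_ne_zero hsG (pow_ne_zero _ hs) h1
  have hbad : {m : ℕ | R.eval (τ (u ^ m)) = 0}.Finite := by
    have h1 : Function.Injective fun m : ℕ => τ (u ^ m) :=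
      τ.toRingHom.injective.comp (pow_inj hu)
    have h2 := (R.roots.toFinset.finite_toSet).preimage h1.injOn
    refine h2.subset fun m hm => ?_
    simp only [Set.mem_preimage, Finset.mem_coe, Multiset.mem_toFinset, mem_roots hR0]
    exact hm
  obtain ⟨N, hN⟩ := hbad.bddAbove
  -- large height
  have hcq : (q j).coeff i ≠ 0 := by
    intro h
    apply hc
    rw [← hq j, coeff_map, h, map_zero]
  obtain ⟨P, c0, m0, hgr⟩ := growth hu (q j) M i hi hcq
  -- the places
  obtain ⟨S, hS⟩ := exists_supp (k := k) (insert u (Finset.univ.biUnion fun j => (q j).coeffs))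
    (fun z : L => z)
  refine ⟨L, inferInstance, inferInstance, inferInstance, inferInstance, inferInstance, τ, S,
    fun C => ?_⟩
  obtain ⟨m, hm⟩ : ∃ m : ℕ, m = N + 1 + m0 + (C + c0).toNat + 1 := ⟨_, rfl⟩
  refine ⟨x m, ⟨τ (u ^ m), hτu m, hx m⟩, fun j P hP => ?_, fun h0 => ?_, ?_⟩
  · have hPu : P.ord u = 0 := by
      by_contra h
      exact hP (hS u (Finset.mem_insert_self _ _) P h)
    refine reg_eval P hu0 hPu (q j) (fun i => ?_) m M
    by_cases h0 : (q j).coeff i = 0
    · left; exact h0
    · right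
      refine le_of_eq ?_
      by_contra h
      exact hP (hS _ (Finset.mem_insert_of_mem
        (Finset.mem_biUnion.2 ⟨j, Finset.mem_univ _, coeff_mem_coeffs h0⟩)) P fun h' => h h'.symm)
  · have h1 : MvPolynomial.aeval (v (τ (u ^ m))) G = 0 := by
      rw [← hx m, ← MvPolynomial.comp_aeval_apply, h0, map_zero]
    have h2 := hR _ (hτu m)
    rw [MvPolynomial.aeval_def] at h1
    simp only at h2
    rw [h1, zero_mul] at h2
    have h3 := hN (show m ∈ {m : ℕ | R.eval (τ (u ^ m)) = 0} from h2.symm)
    omega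
  · have h1 := hgr m (by omega)
    have h2 := le_mapDeg (k := k) (x m) P j
    have h3 : C + c0 < m := by omega
    simp only [x] at h2 ⊢
    linarith

end Pool.Agent.N87.FV
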