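import Pool.Agent.N754.FV.Stm

/-! Orders of values of polynomials at elements with poles, degrees of points on Laurent curves. -/

set_option autoImplicit false
set_option linter.unusedSectionVars false

open FF Pool.Agent.W603.LV Polynomial

namespace Pool.Agent.N87.FV

section

variable {k L : Type*} [Field k] [Field L] [Algebra k L]

theorem ord_dom (P : Place k L) {a r : L} (ha : a ≠ 0) (hr : Ge P (P.ord a + 1) r) :
    a + r ≠ 0 ∧ P.ord (a + r) = P.ord a := by
  by_cases h0 : r = 0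
  · subst h0
    simpa using ha
  · exact P.ord_add_eq ha h0 (by have := hr.resolve_left h0; omega)

/-- the term of highest degree dominates at elements with poles of large order -/
theorem eval_dom (P : Place k L) (q : L[X]) (hq : q ≠ 0) : ∃ B : ℤ, 0 ≤ B ∧ ∀ w : L, w ≠ 0 →
    B < - P.ord w → q.eval w ≠ 0 ∧
      P.ord (q.eval w) = P.ord q.leadingCoeff + q.natDegree * P.ord w := by
  classical
  refine ⟨∑ i ∈ Finset.range q.natDegree, |P.ord q.leadingCoeff - P.ord (q.coeff i)|,
    Finset.sum_nonneg fun _ _ => abs_nonneg _, fun w hw hB => ?_⟩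
  set B : ℤ := ∑ i ∈ Finset.range q.natDegree, |P.ord q.leadingCoeff - P.ord (q.coeff i)| with hBd
  have hB0 : 0 ≤ B := Finset.sum_nonneg fun _ _ => abs_nonneg _
  have hlc : q.leadingCoeff ≠ 0 := leadingCoeff_ne_zero.2 hq
  have ht : P.ord (q.leadingCoeff * w ^ q.natDegree) =
      P.ord q.leadingCoeff + q.natDegree * P.ord w := by
    rw [P.ord_mul hlc (pow_ne_zero _ hw), P.ord_pow]
  have hne : q.leadingCoeff * w ^ q.natDegree ≠ 0 := mul_ne_zero hlc (pow_ne_zero _ hw)
  have hr : Ge P (P.ord (q.leadingCoeff * w ^ q.natDegree) + 1)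
      (∑ i ∈ Finset.range q.natDegree, q.coeff i * w ^ i) := by
    refine Ge.sum _ _ fun i hi => ?_
    by_cases h0 : q.coeff i = 0
    · left; rw [h0, zero_mul]
    · right
      rw [ht, P.ord_mul h0 (pow_ne_zero _ hw), P.ord_pow]
      have h1 : |P.ord q.leadingCoeff - P.ord (q.coeff i)| ≤ B :=
        Finset.single_le_sum (f := fun i => |P.ord q.leadingCoeff - P.ord (q.coeff i)|)
          (fun _ _ => abs_nonneg _) hi
      have h2 := le_abs_self (P.ord q.leadingCoeff - P.ord (q.coeff i))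
      have h3 : (i : ℤ) + 1 ≤ q.natDegree := by
        have := Finset.mem_range.1 hi
        exact_mod_cast this
      nlinarith
  have h4 : q.eval w = q.leadingCoeff * w ^ q.natDegree +
      ∑ i ∈ Finset.range q.natDegree, q.coeff i * w ^ i := by
    rw [eval_eq_sum_range, Finset.sum_range_succ, add_comm]
    rfl
  have h5 := ord_dom P hne hr
  rw [← h4, ht] at h5
  exact h5

theorem reg_eval (P : Place k L) {u : L} (hu0 : u ≠ 0) (hPu : P.ord u = 0) (q : L[X])
    (hq : ∀ i, Ge P 0 (q.coeff i)) (m M : ℕ) : 0 ≤ P.ord (q.eval (u ^ m) / (u ^ m) ^ M) := by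
  have hPm : P.ord (u ^ m) = 0 := by rw [P.ord_pow, hPu, mul_zero]
  have h1 : Ge P 0 (q.eval (u ^ m)) := by
    rw [eval_eq_sum_range]
    refine Ge.sum _ _ fun i _ => ?_
    have h2 : Ge P 0 ((u ^ m) ^ i) := Or.inr (by rw [P.ord_pow, hPm, mul_zero])
    have h3 := (hq i).mul h2
    rwa [add_zero] at h3
  by_cases h0 : q.eval (u ^ m) = 0
  · rw [h0, zero_div, P.ord_zero]
  · rw [P.ord_div h0 (pow_ne_zero _ (pow_ne_zero _ hu0)), P.ord_pow _ M, hPm]
    have := h1.resolve_left h0
    simpa using this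

variable [CharZero k] [IsFF k L]

theorem exists_pole {u : L} (hu : Transcendental k u) : ∃ P : Place k L, P.ord u < 0 := by
  obtain ⟨S, hS, hS2⟩ := poles (k := k) hu
  have h2 := IsFF.finite hu
  have h3 : 0 < Module.finrank (IntermediateField.adjoin k {u}) L := Module.finrank_pos
  rw [← hS2] at h3
  obtain ⟨w, hw, -⟩ := Finset.exists_ne_zero_of_sum_ne_zero h3.ne'
  exact ⟨w, (hS w).1 hw⟩

theorem ne_zero_of_tr {u : L} (hu : Transcendental k u) : u ≠ 0 := by
  rintro rfl
  exact hu isAlgebraic_zero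

theorem pow_inj {u : L} (hu : Transcendental k u) : Function.Injective fun m : ℕ => u ^ m := by
  obtain ⟨P, hP⟩ := exists_pole hu
  intro m m' h
  have h1 : P.ord (u ^ m) = P.ord (u ^ m') := congrArg P.ord h
  rw [P.ord_pow, P.ord_pow] at h1
  have := mul_right_cancel₀ hP.ne h1
  exact_mod_cast this

theorem growth1 {u : L} (hu : Transcendental k u) (q : L[X]) (M : ℕ) (h : M < q.natDegree) :
    ∃ (P : Place k L) (c0 : ℤ) (m0 : ℕ), ∀ m : ℕ, m0 ≤ m →
      (m : ℤ) - c0 ≤ - P.ord (q.eval (u ^ m) / (u ^ m) ^ M) := by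
  obtain ⟨P, hP⟩ := exists_pole hu
  have hu0 := ne_zero_of_tr hu
  have hq : q ≠ 0 := by
    rintro rfl
    simp at h
  obtain ⟨B, hB0, hB⟩ := eval_dom P q hq
  refine ⟨P, P.ord q.leadingCoeff, B.toNat + 1, fun m hm => ?_⟩
  have hm' : B < m := by omega
  have h1 : B < - P.ord (u ^ m) := by
    rw [P.ord_pow]
    nlinarith
  obtain ⟨h2, h3⟩ := hB _ (pow_ne_zero _ hu0) h1
  rw [P.ord_div h2 (pow_ne_zero _ (pow_ne_zero _ hu0)), h3, P.ord_pow (u ^ m) M, P.ord_pow u m]
  have h4 : (M : ℤ) + 1 ≤ q.natDegree := by exact_mod_cast h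
  have h5 : (m : ℤ) ≤ ((q.natDegree : ℤ) - M) * (m * (-P.ord u)) := by
    have h6 : (m : ℤ) ≤ m * (-P.ord u) := by nlinarith
    have h7 : m * (-P.ord u) ≤ ((q.natDegree : ℤ) - M) * (m * (-P.ord u)) := by
      have h8 : (0 : ℤ) ≤ m * (-P.ord u) := by nlinarith
      nlinarith
    exact h6.trans h7
  linarith

theorem growth {u : L} (hu : Transcendental k u) (q : L[X]) (M i : ℕ) (hi : i ≠ M)
    (hc : q.coeff i ≠ 0) :
    ∃ (P : Place k L) (c0 : ℤ) (m0 : ℕ), ∀ m : ℕ, m0 ≤ m →
      (m : ℤ) - c0 ≤ - P.ord (q.eval (u ^ m) / (u ^ m) ^ M) := by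
  by_cases h : M < q.natDegree
  · exact growth1 hu q M h
  · push Not at h
    have hi1 : i ≤ q.natDegree := le_natDegree_of_ne_zero hc
    have h1 : (reflect M q).coeff (M - i) ≠ 0 := by
      rw [coeff_reflect, revAt_le (Nat.sub_le _ _), Nat.sub_sub_self (hi1.trans h)]
      exact hc
    have h2 : 0 < (reflect M q).natDegree := by
      have := le_natDegree_of_ne_zero h1
      omega
    have hu' : Transcendental k u⁻¹ := fun h => hu (by simpa using h.inv)
    obtain ⟨P, c0, m0, h3⟩ := growth1 hu' (reflect M q) 0 h2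
    refine ⟨P, c0, m0, fun m hm => ?_⟩
    have h4 := h3 m hm
    have hw : u ^ m ≠ 0 := pow_ne_zero _ (ne_zero_of_tr hu)
    have h5 : (reflect M q).eval (u⁻¹ ^ m) = q.eval (u ^ m) / (u ^ m) ^ M := by
      let _ := invertibleOfNonzero hw
      have h6 := eval₂_reflect_mul_pow (RingHom.id L) (u ^ m) M q h
      rw [invOf_eq_inv, eval₂_id, eval₂_id] at h6
      rw [eq_div_iff (pow_ne_zero _ hw), ← h6, inv_pow]
    rwa [pow_zero, div_one, h5] at h4

theorem le_mapDeg {n : ℕ} (f : Fin n → L) (P : Place k L) (j : Fin n) :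
    - P.ord (f j) ≤ mapDeg k f := by
  classical
  obtain ⟨T, hT⟩ := exists_supp (k := k) Finset.univ f
  have hfin : (Function.support fun P : Place k L =>
      ((Finset.univ.sup fun j => (-P.ord (f j)).toNat : ℕ) : ℤ)).Finite := by
    refine T.finite_toSet.subset fun P hP => ?_
    by_contra hcon
    apply hP
    have h0 : ∀ j, P.ord (f j) = 0 := by
      intro j
      by_contra h
      exact hcon (hT j (Finset.mem_univ _) P h)
    simp [h0]
  have h1 := single_le_finsum P hfin fun P => Int.natCast_nonneg _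
  refine le_trans ?_ h1
  have h2 : (-P.ord (f j)).toNat ≤ Finset.univ.sup fun j => (-P.ord (f j)).toNat :=
    Finset.le_sup (f := fun j => (-P.ord (f j)).toNat) (Finset.mem_univ j)
  have h3 : ((-P.ord (f j)).toNat : ℤ) ≤
    ((Finset.univ.sup fun j => (-P.ord (f j)).toNat : ℕ) : ℤ) := by exact_mod_cast h2
  exact le_trans (by omega) h3

end

/-- a Laurent curve that is not constant has a coordinate with a nonconstant term -/
theorem exists_coeff {K : Type*} [Field K] {n : ℕ} (v : K → Fin n → K) (M : ℕ)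
    (Q : Fin n → K[X]) (hQ : ∀ t, t ≠ 0 → ∀ j, v t j = (Q j).eval t / t ^ M)
    (hne : ∃ s s', s ≠ 0 ∧ s' ≠ 0 ∧ v s ≠ v s') : ∃ j i, i ≠ M ∧ (Q j).coeff i ≠ 0 := by
  by_contra hcon
  push Not at hcon
  obtain ⟨s, s', hs, hs', hss⟩ := hne
  apply hss
  funext j
  have hQj : Q j = C ((Q j).coeff M) * X ^ M := by
    ext i
    rw [coeff_C_mul_X_pow]
    split_ifs with h
    · rw [h]
    · exact hcon j i h
  rw [hQ s hs j, hQ s' hs' j, hQj]
  simp [hs, hs']

end Pool.Agent.N87.FV
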